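import Pool.Agent.Lib.MP_cad252_al.Rep2

/-!
Malcev rings of characteristic three: the left multiplication representation and the identity
`a (a J(b,c,u)) = J(a, J(a,b,c), u)` for `u` a Jacobian.
-/

namespace Pool.Agent.Malc3

section mal

variable {A : Type*} [NonUnitalNonAssocRing A]

/-- A Malcev ring in which `3 x = 0`. -/
structure IsMal3 (A : Type*) [NonUnitalNonAssocRing A] : Prop where
  sq : ∀ x : A, x * x = 0
  mal : ∀ x y z : A, Jac x y (x * z) = Jac x y z * x
  three : ∀ x : A, x + x + x = 0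

theorem anti' (hA : IsMal3 A) (x y : A) : y * x = -(x * y) := by
  have e := hA.sq (x + y)
  rw [mul_add, add_mul, add_mul, hA.sq, hA.sq, zero_add, add_zero] at e
  rw [eq_neg_iff_add_eq_zero]
  exact e

theorem jac_cyc (x y z : A) : Jac y z x = Jac x y z := by
  unfold Jac
  abel

theorem jac_swap (hA : IsMal3 A) (x y z : A) : Jac y x z = - Jac x y z := by
  unfold Jac
  rw [anti' hA x y, anti' hA z x, anti' hA y z]
  simp only [neg_mul]
  abel

theorem jac_swap' (hA : IsMal3 A) (x y z : A) : Jac x z y = - Jac x y z := by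
  rw [← jac_cyc x z y, jac_swap hA y z x, ← jac_cyc x y z]

theorem jac_add (x y z t : A) : Jac x y (z + t) = Jac x y z + Jac x y t := by
  unfold Jac
  simp only [mul_add, add_mul]
  abel

theorem jac_add1 (x y z t : A) : Jac (x + t) y z = Jac x y z + Jac t y z := by
  unfold Jac
  simp only [mul_add, add_mul]
  abel

theorem jac_add2 (x y z t : A) : Jac x (y + t) z = Jac x y z + Jac x t z := by
  unfold Jac
  simp only [mul_add, add_mul]
  abel

theorem jac_neg (x y z : A) : Jac x y (-z) = - Jac x y z := by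
  unfold Jac
  simp only [mul_neg, neg_mul]
  abel

theorem jac_neg1 (x y z : A) : Jac (-x) y z = - Jac x y z := by
  unfold Jac
  simp only [mul_neg, neg_mul]
  abel

theorem jac_neg2 (x y z : A) : Jac x (-y) z = - Jac x y z := by
  unfold Jac
  simp only [mul_neg, neg_mul]
  abel

theorem jac_zero (x y : A) : Jac x y 0 = 0 := by
  unfold Jac
  simp

theorem jac_self (hA : IsMal3 A) (x z : A) : Jac x x z = 0 := by
  unfold Jac
  rw [hA.sq, zero_mul, zero_add, anti' hA x z, neg_mul]
  abel

theorem mal_lin (hA : IsMal3 A) (x y z t : A) :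
    Jac x y (t * z) + Jac t y (x * z) = Jac x y z * t + Jac t y z * x := by
  have e := hA.mal (x + t) y z
  have e1 := hA.mal x y z
  have e2 := hA.mal t y z
  simp only [add_mul, mul_add, jac_add, jac_add1] at e
  have e3 : Jac x y (x * z) + Jac x y (t * z) + (Jac t y (x * z) + Jac t y (t * z)) =
      Jac x y z * x + Jac t y z * x + (Jac x y z * t + Jac t y z * t) := by
    rw [← sub_eq_zero] at e ⊢
    rw [← e]
    abel
  rw [e1, e2] at e3
  have e4 : (Jac x y (t * z) + Jac t y (x * z)) - (Jac x y z * t + Jac t y z * x) = 0 := by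
    rw [← sub_eq_zero] at e3
    rw [← e3]
    abel
  exact sub_eq_zero.mp e4

/-- Left multiplication as an additive map to endomorphisms. -/
def rho (A : Type*) [NonUnitalNonAssocRing A] : A →+ AddMonoid.End A := AddMonoidHom.mul

theorem rho_apply (x u : A) : rho A x u = x * u := rfl

theorem D_rho (hA : IsMal3 A) (x y u : A) : D (rho A) x y u = Jac x y u := by
  have : D (rho A) x y u = (x * y) * u - x * (y * u) + y * (x * u) := rfl
  rw [this]
  unfold Jac
  rw [anti' hA (y * u) x, anti' hA u x, mul_neg, anti' hA (u * x) y]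
  abel

theorem rho_rep (hA : IsMal3 A) : MRep (rho A) where
  sq := hA.sq
  three := by
    intro r
    apply AddMonoidHom.ext
    intro u
    exact hA.three (r u)
  m1 := by
    intro x y t
    apply AddMonoidHom.ext
    intro u
    change D (rho A) x y (t * u) + D (rho A) t y (x * u) + t * D (rho A) x y u
      + x * D (rho A) t y u = 0
    rw [D_rho hA, D_rho hA, D_rho hA, D_rho hA]
    rw [mal_lin hA, anti' hA t, anti' hA x]
    abel
  m3 := by
    intro t y z
    apply AddMonoidHom.ext
    intro u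
    change D (rho A) y (t * z) u - D (rho A) t y (z * u) + t * D (rho A) y z u
      - Jac t y z * u = 0
    rw [D_rho hA, D_rho hA, D_rho hA]
    have e := mal_lin hA u y z t
    rw [jac_cyc u y (t * z), jac_cyc u y z, anti' hA (Jac u y z) t]
    rw [anti' hA z u, jac_neg] at e
    rw [← sub_eq_zero] at e
    rw [← neg_eq_zero, ← neg_eq_zero, ← e]
    abel

/-- `L` acts as a derivation of the Jacobian. -/
theorem der_jac (hA : IsMal3 A) (x y z u : A) :
    x * Jac y z u = Jac (x * y) z u + Jac y (x * z) u + Jac y z (x * u) := by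
  have e := DFunLike.congr_fun (F2 (rho_rep hA) x y z) u
  change x * D (rho A) y z u - D (rho A) y z (x * u) - D (rho A) (x * y) z u
    - D (rho A) y (x * z) u = 0 at e
  rw [D_rho hA, D_rho hA, D_rho hA, D_rho hA] at e
  rw [← sub_eq_zero, ← e]
  abel

/-- `D x y` is a derivation of the Jacobian. -/
theorem der_jac2 (hA : IsMal3 A) (a b c d u : A) :
    Jac a b (Jac c d u) = Jac (Jac a b c) d u + Jac c (Jac a b d) u + Jac c d (Jac a b u) := by
  have e := DFunLike.congr_fun (F9 (rho_rep hA) a b c d) u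
  change D (rho A) a b (D (rho A) c d u) - D (rho A) c d (D (rho A) a b u)
    - D (rho A) (Jac a b c) d u - D (rho A) c (Jac a b d) u = 0 at e
  rw [D_rho hA, D_rho hA, D_rho hA, D_rho hA, D_rho hA, D_rho hA] at e
  rw [← sub_eq_zero, ← e]
  abel

/-- Anticommutation of `D a b` and `D a c`. -/
theorem jac_engel (hA : IsMal3 A) (a b c u : A) :
    Jac a b (Jac a c u) + Jac a c (Jac a b u) = 0 := by
  have e := DFunLike.congr_fun (S_eq (rho_rep hA) a b a c) u
  change D (rho A) a b (D (rho A) a c u) + D (rho A) a c (D (rho A) a b u)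
    + D (rho A) a a (D (rho A) b c u) + D (rho A) b c (D (rho A) a a u) = 0 at e
  rw [D_rho hA, D_rho hA, D_rho hA, D_rho hA, D_rho hA, D_rho hA, D_rho hA, D_rho hA,
    jac_self hA, jac_self hA, jac_zero] at e
  rw [← e]
  abel

theorem three_nsmul' (hA : IsMal3 A) (x y : A) (h : x + x = y) : x = -y := by
  have e := hA.three x
  rw [h] at e
  rw [eq_neg_iff_add_eq_zero, add_comm]
  exact e

theorem jac_zero1 (x y : A) : Jac 0 x y = 0 := by
  unfold Jac
  simp

theorem jac_zero2 (x y : A) : Jac x 0 y = 0 := by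
  unfold Jac
  simp

theorem jac_self13 (hA : IsMal3 A) (x z : A) : Jac x z x = 0 := by
  rw [jac_swap' hA x x z, jac_self hA, neg_zero]

theorem jac_self23 (hA : IsMal3 A) (x z : A) : Jac z x x = 0 := by
  rw [jac_cyc x z x, jac_self13 hA]

theorem jac_jac (hA : IsMal3 A) (a b c u : A) :
    Jac a (Jac a b c) u = - Jac a b (Jac a c u) := by
  have e := der_jac2 hA a b a c u
  have e1 := jac_engel hA a b c u
  have e3 := hA.three (Jac a b (Jac a c u))
  rw [jac_self13 hA, jac_zero1, zero_add] at e
  linear_combination (norm := abel) e3 - e - e1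

/-- The operator `N`. -/
def Nn (z b c u : A) : A := z * (z * Jac b c u) + Jac z b (Jac z c u)

theorem Nn_swap (hA : IsMal3 A) (z b c u : A) : Nn z c b u = - Nn z b c u := by
  unfold Nn
  rw [jac_swap hA b c u]
  have e := jac_engel hA z b c u
  rw [mul_neg, mul_neg]
  linear_combination (norm := abel) e

theorem Nn_swap' (hA : IsMal3 A) (z b c u : A) : Nn z b u c = - Nn z b c u := by
  unfold Nn
  rw [jac_swap' hA b c u, jac_swap' hA z c u, jac_neg, mul_neg, mul_neg]
  abel

theorem Nn_h (hA : IsMal3 A) (z q p r x : A) : Nn z q p (Jac q r x) = 0 := by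
  have e := DFunLike.congr_fun (hid (rho_rep hA) z q p r) x
  change z * (z * (D (rho A) q p (D (rho A) q r x)))
    + D (rho A) z q (D (rho A) z p (D (rho A) q r x)) = 0 at e
  rw [D_rho hA, D_rho hA, D_rho hA, D_rho hA] at e
  exact e

theorem Nn_add4 (z b c u v : A) : Nn z b c (u + v) = Nn z b c u + Nn z b c v := by
  unfold Nn
  simp only [jac_add, mul_add]
  abel

theorem Nn_add2 (z b b' c u : A) : Nn z (b + b') c u = Nn z b c u + Nn z b' c u := by
  unfold Nn
  simp only [jac_add1, jac_add2, mul_add]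
  abel

/-- Swapping an argument of the inner Jacobian with the second argument. -/
theorem Nn_sw (hA : IsMal3 A) (z b d e x c : A) :
    Nn z b c (Jac d e x) = - Nn z d c (Jac b e x) := by
  have h0 := Nn_h hA z (b + d) c e x
  have h1 := Nn_h hA z b c e x
  have h2 := Nn_h hA z d c e x
  rw [jac_add1, Nn_add4, Nn_add2, Nn_add2, h1, h2] at h0
  linear_combination (norm := abel) h0

theorem Nn_first (hA : IsMal3 A) (z u b c : A) :
    Nn z u b c = z * (z * Jac u b c) - Jac z (Jac u b z) c := by
  unfold Nn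
  have e := jac_jac hA z u b c
  rw [jac_cyc z u b, e]
  abel

theorem jac_R1 (hA : IsMal3 A) (a b c w y : A) :
    Jac (Jac a b c) w y = Jac (Jac w a b) c y + Jac (Jac w b c) a y + Jac (Jac w c a) b y := by
  have e1 := der_jac2 hA a b c w y
  have e2 := der_jac2 hA c w a b y
  have f1 : Jac c (Jac a b w) y = - Jac (Jac w a b) c y := by
    rw [jac_cyc w a b, jac_swap hA (Jac w a b) c y]
  have f2 : Jac (Jac c w a) b y = - Jac (Jac w c a) b y := by
    rw [jac_swap hA w c a, jac_neg1]
  have f3 : Jac a (Jac c w b) y = - Jac (Jac w b c) a y := by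
    rw [← jac_cyc c w b, jac_swap hA (Jac w b c) a y]
  rw [f1] at e1
  rw [f2, f3] at e2
  linear_combination (norm := abel) -e1 - e2

theorem Nn_cyc (hA : IsMal3 A) (z b c u : A) : Nn z u b c = Nn z b c u := by
  rw [Nn_swap hA z b u c, Nn_swap' hA z b c u, neg_neg]

theorem Nn_exch (hA : IsMal3 A) (z b c d e x : A) :
    Nn z (Jac d e x) b c = Nn z (Jac b d e) x c + Nn z (Jac b e x) d c + Nn z (Jac b x d) e c := by
  rw [Nn_first hA, Nn_first hA, Nn_first hA, Nn_first hA]
  rw [jac_R1 hA d e x b c, jac_R1 hA d e x b z]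
  simp only [mul_add, jac_add2]
  abel

/-- The key identity: `z (z J(b,c,u)) + J(z, b, J(z, c, u)) = 0` when `u` is a Jacobian. -/
theorem key (hA : IsMal3 A) (z b c d e x : A) : Nn z b c (Jac d e x) = 0 := by
  have h0 := Nn_exch hA z b c d e x
  rw [Nn_cyc hA z b c (Jac d e x), Nn_cyc hA z x c (Jac b d e), Nn_cyc hA z d c (Jac b e x),
    Nn_cyc hA z e c (Jac b x d)] at h0
  have h1 : Nn z x c (Jac b d e) = - Nn z b c (Jac d e x) := by
    rw [Nn_sw hA z x b d e c, ← jac_cyc x d e]
  have h2 : Nn z d c (Jac b e x) = - Nn z b c (Jac d e x) := Nn_sw hA z d b e x c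
  have h3 : Nn z e c (Jac b x d) = - Nn z b c (Jac d e x) := by
    rw [Nn_sw hA z e b x d c, jac_cyc d e x]
  rw [h1, h2, h3] at h0
  have h4 : Nn z b c (Jac d e x) + Nn z b c (Jac d e x) + Nn z b c (Jac d e x) = 0 := hA.three _
  linear_combination (norm := abel) h0 - h4

end mal

end Pool.Agent.Malc3
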