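import Pool.Agent.Lib.MP_cad252_al.Rep2

/-!
Consequences of the extra identity: two operator identities in degree five.
-/

set_option linter.unusedSimpArgs false

namespace Pool.Agent.Malc3

section rep

variable {A R : Type*} [NonUnitalNonAssocRing A] [Ring R] {L : A →+ R}

/-- The extra operator identity. -/
def P6 (L : A →+ R) : Prop :=
  ∀ x z w : A, L x * L x * D L z w + D L x z * D L x w = 0

theorem P6bp (h6 : P6 L) (x y z w : A) :
    L x * L y * D L z w + L y * L x * D L z w + D L x z * D L y w + D L y z * D L x w = 0 := by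
  have j0 := h6 x z w
  have j1 := h6 y z w
  have j2 := h6 (x + y) z w
  simp only [map_add, D_add_left, D_add_right, mul_add, add_mul, mul_assoc] at j0 j1 j2 ⊢
  linear_combination (norm := skip) j2 - j0 - j1
  abel

theorem beta (h : MRep L) (h6 : P6 L) (a b c d e : A) :
    L a * D L b (Jac c d e) - L b * D L a (Jac c d e) - L (a * b) * L (Jac c d e) = 0 := by
  have Dsma : ∀ p q : A, D L a (p * q) = -D L (p * q) a := fun p q => D_swap h _ _
  have Dsmb : ∀ p q : A, D L b (p * q) = -D L (p * q) b := fun p q => D_swap h _ _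
  have Dsmc : ∀ p q : A, D L c (p * q) = -D L (p * q) c := fun p q => D_swap h _ _
  have Dsmd : ∀ p q : A, D L d (p * q) = -D L (p * q) d := fun p q => D_swap h _ _
  have Dsme : ∀ p q : A, D L e (p * q) = -D L (p * q) e := fun p q => D_swap h _ _
  have Dswab : D L b a = -D L a b := D_swap h _ _
  have Dswac : D L c a = -D L a c := D_swap h _ _
  have Dswad : D L d a = -D L a d := D_swap h _ _
  have Dswae : D L e a = -D L a e := D_swap h _ _
  have Dswbc : D L c b = -D L b c := D_swap h _ _
  have Dswbd : D L d b = -D L b d := D_swap h _ _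
  have Dswbe : D L e b = -D L b e := D_swap h _ _
  have Dswcd : D L d c = -D L c d := D_swap h _ _
  have Dswce : D L e c = -D L c e := D_swap h _ _
  have Dswde : D L e d = -D L d e := D_swap h _ _
  have j0 := congrArg (fun t => L e * t) (P6bp h6 a b d c)
  have j1 := congrArg (fun t => t * D L c e) (G_eq h a b d)
  have j2 := congrArg (fun t => L d * t) (S_eq h a b e c)
  have j3 := congrArg (fun t => t * L e) (S_eq h a b c d)
  have j4 := congrArg (fun t => L d * t) (P6bp h6 a b e c)
  have j5 := congrArg (fun t => L c * t) (S_eq h a b d e)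
  have j6 := S_eq h b c (a * d) e
  have j7 := congrArg (fun t => t * D L b c) (G_eq h d e a)
  have j8 := N1p h b c a d e
  have j9 := congrArg (fun t => t * D L a b) (G_eq h c e d)
  have j10 := congrArg (fun t => D L d e * t) (G_eq h a b c)
  have j11 := LXXp h a b c d e
  have j12 := congrArg (fun t => D L c d * t) (G_eq h a b e)
  have j13 := congrArg (fun t => t * L e) (P6bp h6 a b c d)
  have j14 := congrArg (fun t => L b * t) (P6bp h6 a e c d)
  have j15 := congrArg (fun t => t * L c) (P6bp h6 a b d e)
  have j16 := LXXp h a d e b c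
  have j17 := P6bp h6 d (a * b) e c
  have j18 := congrArg (fun t => D L a e * t) (G_eq h b c d)
  have j19 := LXXp h a b e d c
  have j20 := congrArg (fun t => L a * t) (P6bp h6 b e d c)
  have j21 := congrArg (fun t => L b * t) (P6bp h6 a c e d)
  have j22 := congrArg (fun t => t * D L a e) (G_eq h b d c)
  have j23 := congrArg (fun t => t * D L b d) (G_eq h a c e)
  have j24 := N1p h a d b e c
  have j25 := congrArg (fun t => t * L c) (S_eq h a b e d)
  have j26 := congrArg (fun t => L b * t) (P6bp h6 a d c e)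
  have j27 := N1p h d e a c b
  have j28 := congrArg (fun t => t * L d) (P6bp h6 a b c e)
  have j29 := congrArg (fun t => t * D L c d) (G_eq h a b e)
  have j30 := congrArg (fun t => L a * t) (P6bp h6 b c d e)
  have j31 := congrArg (fun t => (L b * L a) * t) (G_eq h c e d)
  have j32 := congrArg (fun t => L b * t) (F9 h a c d e)
  have j33 := congrArg (fun t => (L b * L a) * t) (G_eq h c d e)
  have j34 := congrArg (fun t => L a * t) (F9 h b c d e)
  have j35 := congrArg (fun t => L a * t) (P6bp h6 b d e c)
  have j36 := congrArg (fun t => D L b c * t) (G_eq h a e d)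
  have j37 := congrArg (fun t => L c * t) (P6bp h6 a b e d)
  have j38 := congrArg (fun t => D L a b * t) (G_eq h d e c)
  have j39 := P6bp h6 b (a * e) c d
  have j40 := P6bp h6 b (a * d) c e
  have j41 := P6bp h6 e (a * b) c d
  have j42 := P6bp h6 c (a * b) d e
  have j43 := S_eq h b d (a * e) c
  have j44 := P6bp h6 b (a * c) d e
  simp only [L_mul, D_mul_left h, Jac, D_add_left, D_add_right, D_neg_left, D_neg_right,
    map_add, map_neg, D_self h, neg_mul, mul_neg, neg_neg, mul_add, add_mul, mul_sub, sub_mul,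
    mul_assoc, mul_zero, zero_mul, neg_zero, Dsma, Dsmb, Dsmc, Dsmd, Dsme, Dswab, Dswac, Dswad,
    Dswae, Dswbc, Dswbd, Dswbe, Dswcd, Dswce, Dswde]
    at j0 j1 j2 j3 j4 j5 j6 j7 j8 j9 j10 j11 j12 j13 j14 j15 j16 j17 j18 j19 j20 j21 j22 j23 j24 j25 j26 j27 j28 j29 j30 j31 j32 j33 j34 j35 j36 j37 j38 j39 j40 j41 j42 j43 j44 ⊢
  linear_combination (norm := skip) -j0 + j1 - j2 - j3 + j4 + j5 - j6 + j7 - j8 + j9 - j10 - j11
    - j12 + j13 - j14 + j15 + j16 + j17 - j18 - j19 - j20 + j21 + j22 + j23 - j24 - j25 + j26 -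
    j27 - j28 - j29 + j30 + j31 - j32 - j33 + j34 + j35 + j36 - j37 - j38 - j39 + j40 + j41 +
    j42 + j43 - j44
  abel_nf
  simp only [three_smul_int h, neg_three_smul_int h, six_smul_int h, neg_six_smul_int h,
    nine_smul_int h, neg_nine_smul_int h, add_zero, zero_add]

theorem alpha (h : MRep L) (h6 : P6 L) (a b c d e : A) :
    L a * D L b (Jac c d e) + L b * D L a (Jac c d e) - L a * L b * L (Jac c d e) - L b * L a * L (Jac c d e) = 0 := by
  have Dsma : ∀ p q : A, D L a (p * q) = -D L (p * q) a := fun p q => D_swap h _ _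
  have Dsmb : ∀ p q : A, D L b (p * q) = -D L (p * q) b := fun p q => D_swap h _ _
  have Dsmc : ∀ p q : A, D L c (p * q) = -D L (p * q) c := fun p q => D_swap h _ _
  have Dsmd : ∀ p q : A, D L d (p * q) = -D L (p * q) d := fun p q => D_swap h _ _
  have Dsme : ∀ p q : A, D L e (p * q) = -D L (p * q) e := fun p q => D_swap h _ _
  have Dswab : D L b a = -D L a b := D_swap h _ _
  have Dswac : D L c a = -D L a c := D_swap h _ _
  have Dswad : D L d a = -D L a d := D_swap h _ _
  have Dswae : D L e a = -D L a e := D_swap h _ _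
  have Dswbc : D L c b = -D L b c := D_swap h _ _
  have Dswbd : D L d b = -D L b d := D_swap h _ _
  have Dswbe : D L e b = -D L b e := D_swap h _ _
  have Dswcd : D L d c = -D L c d := D_swap h _ _
  have Dswce : D L e c = -D L c e := D_swap h _ _
  have Dswde : D L e d = -D L d e := D_swap h _ _
  have j0 := congrArg (fun t => L b * t) (S_eq h a c e d)
  have j1 := congrArg (fun t => t * L e) (P6bp h6 a b d c)
  have j2 := congrArg (fun t => t * L e) (P6bp h6 a b c d)
  have j3 := N1p h a b c e d
  have j4 := congrArg (fun t => L a * t) (S_eq h b c e d)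
  have j5 := congrArg (fun t => L a * t) (S_eq h b d e c)
  have j6 := congrArg (fun t => t * L d) (P6bp h6 a b e c)
  have j7 := congrArg (fun t => t * L c) (P6bp h6 a b e d)
  have j8 := N1p h a b d e c
  have j9 := congrArg (fun t => L b * t) (S_eq h a d e c)
  have j10 := congrArg (fun t => (L a * L b) * t) (F3 h c d e)
  have j11 := congrArg (fun t => L a * t) (F9 h b c d e)
  have j12 := congrArg (fun t => (L b * t) * L d) (F3 h a c e)
  have j13 := congrArg (fun t => (L b * L c) * t) (F3 h a d e)
  have j14 := congrArg (fun t => (L b * L e) * t) (F3 h a c d)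
  have j15 := congrArg (fun t => (L b * t) * L e) (F3 h a c d)
  have j16 := congrArg (fun t => (L b * t) * L a) (F3 h c d e)
  have j17 := congrArg (fun t => (L b * t) * L c) (F3 h a d e)
  have j18 := congrArg (fun t => (L b * L d) * t) (F3 h a c e)
  simp only [L_mul, D_mul_left h, Jac, D_add_left, D_add_right, D_neg_left, D_neg_right,
    map_add, map_neg, D_self h, neg_mul, mul_neg, neg_neg, mul_add, add_mul, mul_sub, sub_mul,
    mul_assoc, mul_zero, zero_mul, neg_zero, Dsma, Dsmb, Dsmc, Dsmd, Dsme, Dswab, Dswac, Dswad,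
    Dswae, Dswbc, Dswbd, Dswbe, Dswcd, Dswce, Dswde]
    at j0 j1 j2 j3 j4 j5 j6 j7 j8 j9 j10 j11 j12 j13 j14 j15 j16 j17 j18 ⊢
  linear_combination (norm := skip) j0 - j1 + j2 - j3 + j4 - j5 - j6 + j7 + j8 - j9 - j10 + j11
    + j12 - j13 - j14 - j15 + j16 - j17 + j18
  abel_nf
  simp only [three_smul_int h, neg_three_smul_int h, six_smul_int h, neg_six_smul_int h,
    nine_smul_int h, neg_nine_smul_int h, add_zero, zero_add]

end rep

end Pool.Agent.Malc3
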