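import Pool.Agent.Lib.MP_cad252_al.Mal
import Pool.Agent.Lib.MP_cad252_al.Rep3

/-!
The span `P` of the Jacobians of a Malcev ring of characteristic three is a nilpotent Lie ring:
`J(P,P,P) = 0` and all products of four elements of `P` vanish.
-/

namespace Pool.Agent.Malc3

section pow

variable {A : Type*} [NonUnitalNonAssocRing A]

/-- The additive span of all Jacobians. -/
def PP (A : Type*) [NonUnitalNonAssocRing A] : AddSubgroup A :=
  AddSubgroup.closure {u | ∃ x y z : A, u = Jac x y z}

theorem jac_mem (x y z : A) : Jac x y z ∈ PP A :=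
  AddSubgroup.subset_closure ⟨x, y, z, rfl⟩

theorem PP_induction {p : A → Prop} (hj : ∀ x y z, p (Jac x y z)) (h0 : p 0)
    (hadd : ∀ x y, p x → p y → p (x + y)) (hneg : ∀ x, p x → p (-x)) {u : A} (hu : u ∈ PP A) :
    p u := by
  unfold PP at hu
  induction hu using AddSubgroup.closure_induction with
  | mem x hx =>
    obtain ⟨a, b, c, rfl⟩ := hx
    exact hj a b c
  | zero => exact h0
  | add x y _ _ hx hy => exact hadd x y hx hy
  | neg x _ hx => exact hneg x hx

theorem PP_mul (hA : IsMal3 A) (a : A) {u : A} (hu : u ∈ PP A) : a * u ∈ PP A := by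
  refine PP_induction (p := fun u => a * u ∈ PP A) ?_ ?_ ?_ ?_ hu
  · intro x y z
    change a * Jac x y z ∈ PP A
    rw [der_jac hA]
    exact (PP A).add_mem ((PP A).add_mem (jac_mem _ _ _) (jac_mem _ _ _)) (jac_mem _ _ _)
  · change a * 0 ∈ PP A
    rw [mul_zero]
    exact (PP A).zero_mem
  · intro x y hx hy
    change a * (x + y) ∈ PP A
    rw [mul_add]
    exact (PP A).add_mem hx hy
  · intro x hx
    change a * (-x) ∈ PP A
    rw [mul_neg]
    exact (PP A).neg_mem hx

theorem PP_mul' (hA : IsMal3 A) (a : A) {u : A} (hu : u ∈ PP A) : u * a ∈ PP A := by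
  rw [anti' hA a u]
  exact (PP A).neg_mem (PP_mul hA a hu)

/-- The representation on `P`. -/
def rhoP (hA : IsMal3 A) : A →+ AddMonoid.End (PP A) where
  toFun x :=
    { toFun := fun u => ⟨x * u, PP_mul hA x u.2⟩
      map_zero' := by
        apply Subtype.ext
        exact mul_zero x
      map_add' := by
        intro u v
        apply Subtype.ext
        exact mul_add x _ _ }
  map_zero' := by
    apply AddMonoidHom.ext
    intro u
    apply Subtype.ext
    exact zero_mul _
  map_add' := by
    intro x y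
    apply AddMonoidHom.ext
    intro u
    apply Subtype.ext
    exact add_mul x y _

theorem D_rhoP (hA : IsMal3 A) (x y : A) (u : PP A) :
    ((D (rhoP hA) x y u : PP A) : A) = Jac x y u := by
  rw [← D_rho hA x y u]
  rfl

theorem rhoP_rep (hA : IsMal3 A) : MRep (rhoP hA) where
  sq := hA.sq
  three := by
    intro r
    apply AddMonoidHom.ext
    intro u
    apply Subtype.ext
    exact hA.three _
  m1 := by
    intro x y t
    apply AddMonoidHom.ext
    intro u
    apply Subtype.ext
    exact DFunLike.congr_fun ((rho_rep hA).m1 x y t) (u : A)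
  m3 := by
    intro t y z
    apply AddMonoidHom.ext
    intro u
    apply Subtype.ext
    exact DFunLike.congr_fun ((rho_rep hA).m3 t y z) (u : A)

theorem key' (hA : IsMal3 A) (z b c : A) {u : A} (hu : u ∈ PP A) : Nn z b c u = 0 := by
  refine PP_induction (p := fun u => Nn z b c u = 0) ?_ ?_ ?_ ?_ hu
  · intro x y w
    exact key hA z b c x y w
  · change Nn z b c 0 = 0
    unfold Nn
    simp only [jac_zero, mul_zero, add_zero]
  · intro x y hx hy
    change Nn z b c (x + y) = 0
    rw [Nn_add4, hx, hy, add_zero]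
  · intro x hx
    change Nn z b c (-x) = 0
    have : Nn z b c (-x) = - Nn z b c x := by
      unfold Nn
      simp only [jac_neg, mul_neg]
      abel
    rw [this, hx, neg_zero]

theorem P6_rhoP (hA : IsMal3 A) : P6 (rhoP hA) := by
  intro x z w
  apply AddMonoidHom.ext
  intro u
  apply Subtype.ext
  have e := key' hA x z w u.2
  unfold Nn at e
  change x * (x * ((D (rhoP hA) z w u : PP A) : A))
    + ((D (rhoP hA) x z (D (rhoP hA) x w u) : PP A) : A) = 0
  rw [D_rhoP hA, D_rhoP hA, D_rhoP hA]
  exact e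

theorem betaP (hA : IsMal3 A) (x y : A) {v u : A} (hv : v ∈ PP A) (hu : u ∈ PP A) :
    x * Jac y v u - y * Jac x v u = (x * y) * (v * u) := by
  refine PP_induction
    (p := fun v => x * Jac y v u - y * Jac x v u = (x * y) * (v * u)) ?_ ?_ ?_ ?_ hv
  · intro a b c
    have e := DFunLike.congr_fun (beta (rhoP_rep hA) (P6_rhoP hA) x y a b c) ⟨u, hu⟩
    have e2 := congrArg Subtype.val e
    change x * ((D (rhoP hA) y (Jac a b c) ⟨u, hu⟩ : PP A) : A)
      - y * ((D (rhoP hA) x (Jac a b c) ⟨u, hu⟩ : PP A) : A)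
      - (x * y) * ((Jac a b c) * u) = 0 at e2
    rw [D_rhoP hA, D_rhoP hA] at e2
    exact sub_eq_zero.mp e2
  · simp only [jac_zero2, mul_zero, zero_mul, sub_zero]
  · intro p q hp hq
    simp only [jac_add2, mul_add, add_mul]
    linear_combination (norm := abel) hp + hq
  · intro p hp
    simp only [jac_neg2, mul_neg, neg_mul]
    linear_combination (norm := abel) -hp

theorem alphaP (hA : IsMal3 A) (x y : A) {v u : A} (hv : v ∈ PP A) (hu : u ∈ PP A) :
    x * Jac y v u + y * Jac x v u = x * (y * (v * u)) + y * (x * (v * u)) := by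
  refine PP_induction
    (p := fun v => x * Jac y v u + y * Jac x v u = x * (y * (v * u)) + y * (x * (v * u)))
    ?_ ?_ ?_ ?_ hv
  · intro a b c
    have e := DFunLike.congr_fun (alpha (rhoP_rep hA) (P6_rhoP hA) x y a b c) ⟨u, hu⟩
    have e2 := congrArg Subtype.val e
    change x * ((D (rhoP hA) y (Jac a b c) ⟨u, hu⟩ : PP A) : A)
      + y * ((D (rhoP hA) x (Jac a b c) ⟨u, hu⟩ : PP A) : A)
      - x * (y * ((Jac a b c) * u)) - y * (x * ((Jac a b c) * u)) = 0 at e2
    rw [D_rhoP hA, D_rhoP hA] at e2
    linear_combination (norm := abel) e2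
  · simp only [jac_zero2, mul_zero, zero_mul, add_zero]
  · intro p q hp hq
    simp only [jac_add2, mul_add, add_mul]
    linear_combination (norm := abel) hp + hq
  · intro p hp
    simp only [jac_neg2, mul_neg, neg_mul]
    linear_combination (norm := abel) -hp

/-- `{x, J(y,z,u)}` is alternating. -/
theorem G_el (hA : IsMal3 A) (x y z u : A) :
    x * Jac y z u + Jac y z (x * u) + y * Jac x z u + Jac x z (y * u) = 0 := by
  have e := DFunLike.congr_fun (G_eq (rho_rep hA) x y z) u
  change x * D (rho A) y z u + D (rho A) y z (x * u) + y * D (rho A) x z u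
    + D (rho A) x z (y * u) = 0 at e
  rw [D_rho hA, D_rho hA, D_rho hA, D_rho hA] at e
  exact e

theorem F2_el (hA : IsMal3 A) (x y z u : A) :
    x * Jac y z u - Jac y z (x * u) - Jac (x * y) z u - Jac y (x * z) u = 0 := by
  have e := DFunLike.congr_fun (F2 (rho_rep hA) x y z) u
  change x * D (rho A) y z u - D (rho A) y z (x * u) - D (rho A) (x * y) z u
    - D (rho A) y (x * z) u = 0 at e
  rw [D_rho hA, D_rho hA, D_rho hA, D_rho hA] at e
  exact e

theorem Dmul_el (hA : IsMal3 A) (x y z u : A) :
    Jac (x * y) z u = Jac y z (x * u) - x * Jac y z u + (Jac z x (y * u) - y * Jac z x u)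
      + (z * Jac x y u - Jac x y (z * u)) := by
  have e := DFunLike.congr_fun (D_mul_left (rho_rep hA) x y z) u
  change D (rho A) (x * y) z u = D (rho A) y z (x * u) - x * D (rho A) y z u
    + (D (rho A) z x (y * u) - y * D (rho A) z x u)
    + (z * D (rho A) x y u - D (rho A) x y (z * u)) at e
  simp only [D_rho hA] at e
  exact e

/-- `J(xy, v, u) = J(x, y, vu) + (xy)(vu)` for `v, u` in `P`. -/
theorem B3 (hA : IsMal3 A) (x y : A) {v u : A} (hv : v ∈ PP A) (hu : u ∈ PP A) :
    Jac (x * y) v u = Jac x y (v * u) + (x * y) * (v * u) := by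
  have e := betaP hA x y hv hu
  have g1 := G_el hA x y v u
  have g2 := G_el hA v x y u
  have t1 := hA.three (Jac y v (x * u))
  have t2 := hA.three (y * Jac x v u)
  have t3 := hA.three (Jac x y (v * u))
  rw [Dmul_el hA x y v u]
  rw [jac_swap hA x v (y * u), jac_swap hA x v u]
  rw [jac_swap hA y v (x * u), jac_swap hA y v u] at g2
  simp only [mul_neg] at g2 ⊢
  linear_combination (norm := abel) e - g1 + g2 + t1 + t2 - t3

theorem F6_el (hA : IsMal3 A) (a b c u : A) :
    (Jac a b c) * u = -(Jac (a * b) c u + Jac (b * c) a u + Jac (c * a) b u) := by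
  have e := DFunLike.congr_fun (F6 (rho_rep hA) a b c) u
  change (Jac a b c) * u + D (rho A) (a * b) c u + D (rho A) (b * c) a u
    + D (rho A) (c * a) b u = 0 at e
  rw [D_rho hA, D_rho hA, D_rho hA] at e
  linear_combination (norm := abel) e

/-- `P` is a Lie ring: the Jacobian vanishes on `P`. -/
theorem jac_PP (hA : IsMal3 A) {t v u : A} (ht : t ∈ PP A) (hv : v ∈ PP A) (hu : u ∈ PP A) :
    Jac t v u = 0 := by
  refine PP_induction (p := fun t => Jac t v u = 0) ?_ ?_ ?_ ?_ ht
  · intro a b c
    change Jac (Jac a b c) v u = 0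
    have h : Jac (Jac a b c) v u = Jac ((a * b) * c) v u + Jac ((b * c) * a) v u
        + Jac ((c * a) * b) v u := by
      have : Jac a b c = (a * b) * c + (b * c) * a + (c * a) * b := rfl
      rw [this, jac_add1, jac_add1]
    rw [h, B3 hA (a * b) c hv hu, B3 hA (b * c) a hv hu, B3 hA (c * a) b hv hu]
    have e := F6_el hA a b c (v * u)
    have e2 : (Jac a b c) * (v * u) = ((a * b) * c) * (v * u) + ((b * c) * a) * (v * u)
        + ((c * a) * b) * (v * u) := by
      have : Jac a b c = (a * b) * c + (b * c) * a + (c * a) * b := rfl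
      rw [this, add_mul, add_mul]
    rw [e2] at e
    linear_combination (norm := abel) e
  · exact jac_zero1 v u
  · intro x y hx hy
    change Jac (x + y) v u = 0
    rw [jac_add1, hx, hy, add_zero]
  · intro x hx
    change Jac (-x) v u = 0
    rw [jac_neg1, hx, neg_zero]

theorem PP_prod1 (hA : IsMal3 A) {t v w u : A} (ht : t ∈ PP A) (hv : v ∈ PP A) (hw : w ∈ PP A)
    (hu : u ∈ PP A) : (t * v) * (w * u) = 0 := by
  have e := betaP hA t v hw hu
  rw [jac_PP hA hv hw hu, jac_PP hA ht hw hu, mul_zero, mul_zero, sub_zero] at e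
  exact e.symm

theorem PP_prod2 (hA : IsMal3 A) {t v w u : A} (ht : t ∈ PP A) (hv : v ∈ PP A) (hw : w ∈ PP A)
    (hu : u ∈ PP A) : t * (v * (w * u)) = 0 := by
  have e := alphaP hA t v hw hu
  rw [jac_PP hA hv hw hu, jac_PP hA ht hw hu, mul_zero, mul_zero, add_zero] at e
  have e1 := PP_prod1 hA ht hv hw hu
  have e2 := jac_PP hA ht hv (PP_mul hA w hu)
  unfold Jac at e2
  have f1 : v * (w * u) * t = -(t * (v * (w * u))) := anti' hA _ _
  have f2 : (w * u) * t = -(t * (w * u)) := anti' hA _ _
  have f3 : (t * (w * u)) * v = -(v * (t * (w * u))) := anti' hA _ _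
  rw [e1, f1, f2, neg_mul, f3, neg_neg, zero_add] at e2
  have e3 := hA.three (t * (v * (w * u)))
  linear_combination (norm := abel) e3 + e + e2

/-- All products of four elements of `P` vanish: the third bracketing. -/
theorem PP_prod3 (hA : IsMal3 A) {t v w u : A} (ht : t ∈ PP A) (hv : v ∈ PP A) (hw : w ∈ PP A)
    (hu : u ∈ PP A) : ((t * v) * w) * u = 0 := by
  have f1 : ((t * v) * w) * u = -(u * ((t * v) * w)) := anti' hA _ _
  have f2 : (t * v) * w = -(w * (t * v)) := anti' hA _ _
  rw [f1, f2, mul_neg, neg_neg]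
  exact PP_prod2 hA hu hw ht hv

end pow

end Pool.Agent.Malc3
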