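import Mathlib

/-!
Representations of Malcev algebras in characteristic three: the basic operator identities.
-/

set_option linter.unusedSimpArgs false

namespace Pool.Agent.Malc3

section rep

variable {A R : Type*} [NonUnitalNonAssocRing A] [Ring R]

/-- The Jacobian of three elements. -/
def Jac (x y z : A) : A := (x * y) * z + (y * z) * x + (z * x) * y

/-- `D x y = L (xy) - [L x, L y]`. -/
def D (L : A →+ R) (x y : A) : R := L (x * y) - L x * L y + L y * L x

/-- The operator identities satisfied by the left multiplications of a Malcev algebra of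
characteristic three. -/
structure MRep (L : A →+ R) : Prop where
  sq : ∀ x : A, x * x = 0
  three : ∀ r : R, r + r + r = 0
  m1 : ∀ x y t, D L x y * L t + D L t y * L x + L t * D L x y + L x * D L t y = 0
  m3 : ∀ t y z, D L y (t * z) - D L t y * L z + L t * D L y z - L (Jac t y z) = 0

variable {L : A →+ R}

theorem anti (h : MRep L) (x y : A) : y * x = -(x * y) := by
  have e := h.sq (x + y)
  rw [mul_add, add_mul, add_mul, h.sq, h.sq, zero_add, add_zero] at e
  rw [eq_neg_iff_add_eq_zero]
  exact e

theorem D_swap (h : MRep L) (x y : A) : D L y x = - D L x y := by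
  unfold D
  rw [anti h x y, map_neg]
  abel

theorem D_self (h : MRep L) (x : A) : D L x x = 0 := by
  unfold D
  rw [h.sq, map_zero]
  abel

theorem D_add_left (x y z : A) : D L (x + y) z = D L x z + D L y z := by
  unfold D
  simp only [add_mul, mul_add, map_add]
  abel

theorem D_add_right (x y z : A) : D L x (y + z) = D L x y + D L x z := by
  unfold D
  simp only [add_mul, mul_add, map_add]
  abel

theorem D_neg_left (x y : A) : D L (-x) y = - D L x y := by
  unfold D
  simp only [neg_mul, mul_neg, map_neg]
  abel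

theorem D_neg_right (x y : A) : D L x (-y) = - D L x y := by
  unfold D
  simp only [neg_mul, mul_neg, map_neg]
  abel

theorem L_mul (x y : A) : L (x * y) = D L x y + L x * L y - L y * L x := by
  unfold D
  abel

theorem G_eq (h : MRep L) (x y z : A) :
    L x * D L y z + D L y z * L x + L y * D L x z + D L x z * L y = 0 := by
  have e := h.m1 x z y
  rw [← e]
  abel

theorem three_smul_int (h : MRep L) (r : R) : (3 : ℤ) • r = 0 := by
  have e := h.three r
  have : (3 : ℤ) • r = r + r + r := by
    abel
  rw [this, e]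

theorem neg_three_smul_int (h : MRep L) (r : R) : (-3 : ℤ) • r = 0 := by
  rw [neg_smul, three_smul_int h, neg_zero]

theorem six_smul_int (h : MRep L) (r : R) : (6 : ℤ) • r = 0 := by
  have : (6 : ℤ) = 2 * 3 := by norm_num
  rw [this, mul_smul, three_smul_int h, smul_zero]

theorem neg_six_smul_int (h : MRep L) (r : R) : (-6 : ℤ) • r = 0 := by
  rw [neg_smul, six_smul_int h, neg_zero]

theorem nine_smul_int (h : MRep L) (r : R) : (9 : ℤ) • r = 0 := by
  have : (9 : ℤ) = 3 * 3 := by norm_num
  rw [this, mul_smul, three_smul_int h]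

theorem neg_nine_smul_int (h : MRep L) (r : R) : (-9 : ℤ) • r = 0 := by
  rw [neg_smul, nine_smul_int h, neg_zero]

theorem F2 (h : MRep L) (x y z : A) :
    L x * D L y z - D L y z * L x - D L (x * y) z - D L y (x * z) = 0 := by
  have e1 := h.m3 z x y
  have e2 := h.m1 z x y
  have a1 : z * x = -(x * z) := anti h x z
  have a2 : y * x = -(x * y) := anti h x y
  have a3 : z * y = -(y * z) := anti h y z
  have a5 : y * (x * z) = -((x * z) * y) := anti h _ _
  have a6 : x * (y * z) = -((y * z) * x) := anti h _ _
  unfold Jac at e1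
  unfold D at *
  simp only [a1, a2, a3, a5, a6, map_add, map_neg, neg_mul, mul_neg, mul_add, add_mul, mul_sub,
    sub_mul, mul_assoc, neg_neg] at e1 e2 ⊢
  linear_combination (norm := skip) e1 - e2
  abel_nf
  simp only [three_smul_int h, neg_three_smul_int h, add_zero]

theorem D_mul_left (h : MRep L) (x y z : A) : D L (x * y) z =
    D L y z * L x - L x * D L y z + (D L z x * L y - L y * D L z x)
      + (L z * D L x y - D L x y * L z) := by
  have e1 := F2 h x y z
  have e2 := F2 h y z x
  have e3 := F2 h z x y
  rw [← sub_eq_zero]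
  have b1 : D L y (x * z) = D L (z * x) y := by
    rw [anti h z x, D_neg_right, D_swap h (z * x) y, neg_neg]
  have b2 : D L z (y * x) = D L (x * y) z := by
    rw [anti h x y, D_neg_right, D_swap h (x * y) z, neg_neg]
  have b3 : D L x (z * y) = D L (y * z) x := by
    rw [anti h y z, D_neg_right, D_swap h (y * z) x, neg_neg]
  rw [b1] at e1
  rw [b2] at e2
  rw [b3] at e3
  linear_combination (norm := skip) e1 + e2 - e3
  abel_nf
  simp only [three_smul_int h, neg_three_smul_int h, add_zero]

theorem F3 (h : MRep L) (a b c : A) :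
    L (Jac a b c) - D L b c * L a - D L c a * L b - D L a b * L c = 0 := by
  have Dsma : ∀ p q : A, D L a (p * q) = -D L (p * q) a := fun p q => D_swap h _ _
  have Dsmb : ∀ p q : A, D L b (p * q) = -D L (p * q) b := fun p q => D_swap h _ _
  have Dsmc : ∀ p q : A, D L c (p * q) = -D L (p * q) c := fun p q => D_swap h _ _
  have Dswab : D L b a = -D L a b := D_swap h _ _
  have Dswac : D L c a = -D L a c := D_swap h _ _
  have Dswbc : D L c b = -D L b c := D_swap h _ _
  have j0 := G_eq h a c b
  have j1 := G_eq h a b c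
  simp only [L_mul, D_mul_left h, Jac, D_add_left, D_add_right, D_neg_left, D_neg_right,
    map_add, map_neg, D_self h, neg_mul, mul_neg, neg_neg, mul_add, add_mul, mul_sub, sub_mul,
    mul_assoc, mul_zero, zero_mul, neg_zero, Dsma, Dsmb, Dsmc, Dswab, Dswac, Dswbc] at j0 j1 ⊢
  linear_combination (norm := skip) j0 - j1
  abel_nf
  simp only [three_smul_int h, neg_three_smul_int h, six_smul_int h, neg_six_smul_int h,
    nine_smul_int h, neg_nine_smul_int h, add_zero, zero_add]

theorem F5 (h : MRep L) (a b c : A) :
    D L a b * L c + D L c b * L a - D L a (c * b) - D L c (a * b) = 0 := by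
  have Dsma : ∀ p q : A, D L a (p * q) = -D L (p * q) a := fun p q => D_swap h _ _
  have Dsmb : ∀ p q : A, D L b (p * q) = -D L (p * q) b := fun p q => D_swap h _ _
  have Dsmc : ∀ p q : A, D L c (p * q) = -D L (p * q) c := fun p q => D_swap h _ _
  have Dswab : D L b a = -D L a b := D_swap h _ _
  have Dswac : D L c a = -D L a c := D_swap h _ _
  have Dswbc : D L c b = -D L b c := D_swap h _ _
  have j0 := G_eq h a c b
  simp only [L_mul, D_mul_left h, Jac, D_add_left, D_add_right, D_neg_left, D_neg_right,
    map_add, map_neg, D_self h, neg_mul, mul_neg, neg_neg, mul_add, add_mul, mul_sub, sub_mul,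
    mul_assoc, mul_zero, zero_mul, neg_zero, Dsma, Dsmb, Dsmc, Dswab, Dswac, Dswbc] at j0 ⊢
  linear_combination (norm := skip) -j0
  abel_nf
  simp only [three_smul_int h, neg_three_smul_int h, six_smul_int h, neg_six_smul_int h,
    nine_smul_int h, neg_nine_smul_int h, add_zero, zero_add]

theorem F5d (h : MRep L) (a b c : A) :
    L c * D L a b + L a * D L c b + D L a (c * b) + D L c (a * b) = 0 := by
  have Dsma : ∀ p q : A, D L a (p * q) = -D L (p * q) a := fun p q => D_swap h _ _
  have Dsmb : ∀ p q : A, D L b (p * q) = -D L (p * q) b := fun p q => D_swap h _ _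
  have Dsmc : ∀ p q : A, D L c (p * q) = -D L (p * q) c := fun p q => D_swap h _ _
  have Dswab : D L b a = -D L a b := D_swap h _ _
  have Dswac : D L c a = -D L a c := D_swap h _ _
  have Dswbc : D L c b = -D L b c := D_swap h _ _
  have j0 := G_eq h a c b
  simp only [L_mul, D_mul_left h, Jac, D_add_left, D_add_right, D_neg_left, D_neg_right,
    map_add, map_neg, D_self h, neg_mul, mul_neg, neg_neg, mul_add, add_mul, mul_sub, sub_mul,
    mul_assoc, mul_zero, zero_mul, neg_zero, Dsma, Dsmb, Dsmc, Dswab, Dswac, Dswbc] at j0 ⊢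
  linear_combination (norm := skip) -j0
  abel_nf
  simp only [three_smul_int h, neg_three_smul_int h, six_smul_int h, neg_six_smul_int h,
    nine_smul_int h, neg_nine_smul_int h, add_zero, zero_add]

theorem F6 (h : MRep L) (a b c : A) :
    L (Jac a b c) + D L (a * b) c + D L (b * c) a + D L (c * a) b = 0 := by
  have Dsma : ∀ p q : A, D L a (p * q) = -D L (p * q) a := fun p q => D_swap h _ _
  have Dsmb : ∀ p q : A, D L b (p * q) = -D L (p * q) b := fun p q => D_swap h _ _
  have Dsmc : ∀ p q : A, D L c (p * q) = -D L (p * q) c := fun p q => D_swap h _ _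
  have Dswab : D L b a = -D L a b := D_swap h _ _
  have Dswac : D L c a = -D L a c := D_swap h _ _
  have Dswbc : D L c b = -D L b c := D_swap h _ _
  simp only [L_mul, D_mul_left h, Jac, D_add_left, D_add_right, D_neg_left, D_neg_right,
    map_add, map_neg, D_self h, neg_mul, mul_neg, neg_neg, mul_add, add_mul, mul_sub, sub_mul,
    mul_assoc, mul_zero, zero_mul, neg_zero, Dsma, Dsmb, Dsmc, Dswab, Dswac, Dswbc] at ⊢
  abel_nf
  simp only [three_smul_int h, neg_three_smul_int h, six_smul_int h, neg_six_smul_int h,
    nine_smul_int h, neg_nine_smul_int h, add_zero, zero_add]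

theorem S_eq (h : MRep L) (a b c d : A) :
    D L a b * D L c d + D L c d * D L a b + D L a c * D L b d + D L b d * D L a c = 0 := by
  have Dsma : ∀ p q : A, D L a (p * q) = -D L (p * q) a := fun p q => D_swap h _ _
  have Dsmb : ∀ p q : A, D L b (p * q) = -D L (p * q) b := fun p q => D_swap h _ _
  have Dsmc : ∀ p q : A, D L c (p * q) = -D L (p * q) c := fun p q => D_swap h _ _
  have Dsmd : ∀ p q : A, D L d (p * q) = -D L (p * q) d := fun p q => D_swap h _ _
  have Dswab : D L b a = -D L a b := D_swap h _ _
  have Dswac : D L c a = -D L a c := D_swap h _ _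
  have Dswad : D L d a = -D L a d := D_swap h _ _
  have Dswbc : D L c b = -D L b c := D_swap h _ _
  have Dswbd : D L d b = -D L b d := D_swap h _ _
  have Dswcd : D L d c = -D L c d := D_swap h _ _
  have j0 := congrArg (fun t => L b * t) (G_eq h a d c)
  have j1 := congrArg (fun t => t * L b) (G_eq h a d c)
  have j2 := G_eq h a (b * d) c
  have j3 := G_eq h d (a * b) c
  have j4 := G_eq h a d (b * c)
  simp only [L_mul, D_mul_left h, Jac, D_add_left, D_add_right, D_neg_left, D_neg_right,
    map_add, map_neg, D_self h, neg_mul, mul_neg, neg_neg, mul_add, add_mul, mul_sub, sub_mul,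
    mul_assoc, mul_zero, zero_mul, neg_zero, Dsma, Dsmb, Dsmc, Dsmd, Dswab, Dswac, Dswad, Dswbc,
    Dswbd, Dswcd]
    at j0 j1 j2 j3 j4 ⊢
  linear_combination (norm := skip) -j0 + j1 + j2 - j3 + j4
  abel_nf
  simp only [three_smul_int h, neg_three_smul_int h, six_smul_int h, neg_six_smul_int h,
    nine_smul_int h, neg_nine_smul_int h, add_zero, zero_add]

theorem F9 (h : MRep L) (a b c d : A) :
    D L a b * D L c d - D L c d * D L a b - D L (Jac a b c) d - D L c (Jac a b d) = 0 := by
  have Dsma : ∀ p q : A, D L a (p * q) = -D L (p * q) a := fun p q => D_swap h _ _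
  have Dsmb : ∀ p q : A, D L b (p * q) = -D L (p * q) b := fun p q => D_swap h _ _
  have Dsmc : ∀ p q : A, D L c (p * q) = -D L (p * q) c := fun p q => D_swap h _ _
  have Dsmd : ∀ p q : A, D L d (p * q) = -D L (p * q) d := fun p q => D_swap h _ _
  have Dswab : D L b a = -D L a b := D_swap h _ _
  have Dswac : D L c a = -D L a c := D_swap h _ _
  have Dswad : D L d a = -D L a d := D_swap h _ _
  have Dswbc : D L c b = -D L b c := D_swap h _ _
  have Dswbd : D L d b = -D L b d := D_swap h _ _
  have Dswcd : D L d c = -D L c d := D_swap h _ _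
  have j0 := F2 h a (b * c) d
  simp only [L_mul, D_mul_left h, Jac, D_add_left, D_add_right, D_neg_left, D_neg_right,
    map_add, map_neg, D_self h, neg_mul, mul_neg, neg_neg, mul_add, add_mul, mul_sub, sub_mul,
    mul_assoc, mul_zero, zero_mul, neg_zero, Dsma, Dsmb, Dsmc, Dsmd, Dswab, Dswac, Dswad, Dswbc,
    Dswbd, Dswcd]
    at j0 ⊢
  linear_combination (norm := skip) j0
  abel_nf
  simp only [three_smul_int h, neg_three_smul_int h, six_smul_int h, neg_six_smul_int h,
    nine_smul_int h, neg_nine_smul_int h, add_zero, zero_add]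

theorem R4 (h : MRep L) (a b c d : A) :
    L a * L c * D L b d - L a * L d * D L b c - D L a d * L c * L b + D L a c * L d * L b + L b * L c * D L a d - L b * L d * D L a c - D L b d * L c * L a + D L b c * L d * L a = 0 := by
  have Dsma : ∀ p q : A, D L a (p * q) = -D L (p * q) a := fun p q => D_swap h _ _
  have Dsmb : ∀ p q : A, D L b (p * q) = -D L (p * q) b := fun p q => D_swap h _ _
  have Dsmc : ∀ p q : A, D L c (p * q) = -D L (p * q) c := fun p q => D_swap h _ _
  have Dsmd : ∀ p q : A, D L d (p * q) = -D L (p * q) d := fun p q => D_swap h _ _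
  have Dswab : D L b a = -D L a b := D_swap h _ _
  have Dswac : D L c a = -D L a c := D_swap h _ _
  have Dswad : D L d a = -D L a d := D_swap h _ _
  have Dswbc : D L c b = -D L b c := D_swap h _ _
  have Dswbd : D L d b = -D L b d := D_swap h _ _
  have Dswcd : D L d c = -D L c d := D_swap h _ _
  have j0 := congrArg (fun t => t * L b) (F3 h a c d)
  have j1 := G_eq h a b (c * d)
  have j2 := congrArg (fun t => L a * t) (F3 h b c d)
  have j3 := congrArg (fun t => L b * t) (F3 h a c d)
  have j4 := congrArg (fun t => t * L a) (F3 h b c d)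
  simp only [L_mul, D_mul_left h, Jac, D_add_left, D_add_right, D_neg_left, D_neg_right,
    map_add, map_neg, D_self h, neg_mul, mul_neg, neg_neg, mul_add, add_mul, mul_sub, sub_mul,
    mul_assoc, mul_zero, zero_mul, neg_zero, Dsma, Dsmb, Dsmc, Dsmd, Dswab, Dswac, Dswad, Dswbc,
    Dswbd, Dswcd]
    at j0 j1 j2 j3 j4 ⊢
  linear_combination (norm := skip) -j0 + j1 + j2 + j3 - j4
  abel_nf
  simp only [three_smul_int h, neg_three_smul_int h, six_smul_int h, neg_six_smul_int h,
    nine_smul_int h, neg_nine_smul_int h, add_zero, zero_add]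

theorem LXX (h : MRep L) (a b c : A) :
    L a * D L a b * D L a c = 0 := by
  have Dsma : ∀ p q : A, D L a (p * q) = -D L (p * q) a := fun p q => D_swap h _ _
  have Dsmb : ∀ p q : A, D L b (p * q) = -D L (p * q) b := fun p q => D_swap h _ _
  have Dsmc : ∀ p q : A, D L c (p * q) = -D L (p * q) c := fun p q => D_swap h _ _
  have Dswab : D L b a = -D L a b := D_swap h _ _
  have Dswac : D L c a = -D L a c := D_swap h _ _
  have Dswbc : D L c b = -D L b c := D_swap h _ _
  have j0 := congrArg (fun t => D L a c * t) (G_eq h a a b)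
  have j1 := congrArg (fun t => t * L a) (S_eq h a a b c)
  have j2 := congrArg (fun t => D L a b * t) (G_eq h a a c)
  have j3 := S_eq h a a c (a * b)
  simp only [L_mul, D_mul_left h, Jac, D_add_left, D_add_right, D_neg_left, D_neg_right,
    map_add, map_neg, D_self h, neg_mul, mul_neg, neg_neg, mul_add, add_mul, mul_sub, sub_mul,
    mul_assoc, mul_zero, zero_mul, neg_zero, Dsma, Dsmb, Dsmc, Dswab, Dswac, Dswbc]
    at j0 j1 j2 j3 ⊢
  linear_combination (norm := skip) j0 - j1 - j2 + j3
  abel_nf
  simp only [three_smul_int h, neg_three_smul_int h, six_smul_int h, neg_six_smul_int h,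
    nine_smul_int h, neg_nine_smul_int h, add_zero, zero_add]

theorem XLX (h : MRep L) (a b c : A) :
    D L a b * L a * D L a c = 0 := by
  have Dsma : ∀ p q : A, D L a (p * q) = -D L (p * q) a := fun p q => D_swap h _ _
  have Dsmb : ∀ p q : A, D L b (p * q) = -D L (p * q) b := fun p q => D_swap h _ _
  have Dsmc : ∀ p q : A, D L c (p * q) = -D L (p * q) c := fun p q => D_swap h _ _
  have Dswab : D L b a = -D L a b := D_swap h _ _
  have Dswac : D L c a = -D L a c := D_swap h _ _
  have Dswbc : D L c b = -D L b c := D_swap h _ _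
  have j0 := congrArg (fun t => D L a c * t) (G_eq h a a b)
  have j1 := S_eq h a a b (a * c)
  have j2 := congrArg (fun t => t * L a) (S_eq h a a b c)
  have j3 := congrArg (fun t => t * D L a b) (G_eq h a a c)
  simp only [L_mul, D_mul_left h, Jac, D_add_left, D_add_right, D_neg_left, D_neg_right,
    map_add, map_neg, D_self h, neg_mul, mul_neg, neg_neg, mul_add, add_mul, mul_sub, sub_mul,
    mul_assoc, mul_zero, zero_mul, neg_zero, Dsma, Dsmb, Dsmc, Dswab, Dswac, Dswbc]
    at j0 j1 j2 j3 ⊢
  linear_combination (norm := skip) j0 + j1 + j2 + j3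
  abel_nf
  simp only [three_smul_int h, neg_three_smul_int h, six_smul_int h, neg_six_smul_int h,
    nine_smul_int h, neg_nine_smul_int h, add_zero, zero_add]

theorem XXL (h : MRep L) (a b c : A) :
    D L a b * D L a c * L a = 0 := by
  have Dsma : ∀ p q : A, D L a (p * q) = -D L (p * q) a := fun p q => D_swap h _ _
  have Dsmb : ∀ p q : A, D L b (p * q) = -D L (p * q) b := fun p q => D_swap h _ _
  have Dsmc : ∀ p q : A, D L c (p * q) = -D L (p * q) c := fun p q => D_swap h _ _
  have Dswab : D L b a = -D L a b := D_swap h _ _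
  have Dswac : D L c a = -D L a c := D_swap h _ _
  have Dswbc : D L c b = -D L b c := D_swap h _ _
  have j0 := congrArg (fun t => t * D L a b) (G_eq h a a c)
  have j1 := congrArg (fun t => t * D L a c) (G_eq h a a b)
  have j2 := congrArg (fun t => L a * t) (S_eq h a a b c)
  have j3 := S_eq h a a b (a * c)
  simp only [L_mul, D_mul_left h, Jac, D_add_left, D_add_right, D_neg_left, D_neg_right,
    map_add, map_neg, D_self h, neg_mul, mul_neg, neg_neg, mul_add, add_mul, mul_sub, sub_mul,
    mul_assoc, mul_zero, zero_mul, neg_zero, Dsma, Dsmb, Dsmc, Dswab, Dswac, Dswbc]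
    at j0 j1 j2 j3 ⊢
  linear_combination (norm := skip) j0 - j1 - j2 - j3
  abel_nf
  simp only [three_smul_int h, neg_three_smul_int h, six_smul_int h, neg_six_smul_int h,
    nine_smul_int h, neg_nine_smul_int h, add_zero, zero_add]

end rep

end Pool.Agent.Malc3
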