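import Pool.Agent.Lib.MP_cad252_al.Rep

set_option linter.unusedSimpArgs false

namespace Pool.Agent.Malc3

section rep

variable {A R : Type*} [NonUnitalNonAssocRing A] [Ring R] {L : A →+ R}

theorem LXXp (h : MRep L) (x y z q w : A) :
    L x * D L y q * D L z w + L x * D L z q * D L y w + L y * D L x q * D L z w + L y * D L z q
    * D L x w + L z * D L x q * D L y w + L z * D L y q * D L x w = 0 := by
  have j0 := LXX h x q w
  have j1 := LXX h y q w
  have j2 := LXX h z q w
  have j3 := LXX h (x + y) q w
  have j4 := LXX h (x + z) q w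
  have j5 := LXX h (y + z) q w
  have j6 := LXX h (x + y + z) q w
  simp only [map_add, D_add_left, D_add_right, mul_add, add_mul, mul_assoc]
    at j0 j1 j2 j3 j4 j5 j6 ⊢
  linear_combination (norm := skip) j0 + j1 + j2 - j3 - j4 - j5 + j6
  abel

theorem XLXp (h : MRep L) (x y z q w : A) :
    D L y q * L x * D L z w + D L z q * L x * D L y w + D L x q * L y * D L z w + D L z q * L y
    * D L x w + D L x q * L z * D L y w + D L y q * L z * D L x w = 0 := by
  have j0 := XLX h x q w
  have j1 := XLX h y q w
  have j2 := XLX h z q w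
  have j3 := XLX h (x + y) q w
  have j4 := XLX h (x + z) q w
  have j5 := XLX h (y + z) q w
  have j6 := XLX h (x + y + z) q w
  simp only [map_add, D_add_left, D_add_right, mul_add, add_mul, mul_assoc]
    at j0 j1 j2 j3 j4 j5 j6 ⊢
  linear_combination (norm := skip) j0 + j1 + j2 - j3 - j4 - j5 + j6
  abel

theorem XXLp (h : MRep L) (x y z q w : A) :
    D L y q * D L z w * L x + D L z q * D L y w * L x + D L x q * D L z w * L y + D L z q * D L
    x w * L y + D L x q * D L y w * L z + D L y q * D L x w * L z = 0 := by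
  have j0 := XXL h x q w
  have j1 := XXL h y q w
  have j2 := XXL h z q w
  have j3 := XXL h (x + y) q w
  have j4 := XXL h (x + z) q w
  have j5 := XXL h (y + z) q w
  have j6 := XXL h (x + y + z) q w
  simp only [map_add, D_add_left, D_add_right, mul_add, add_mul, mul_assoc]
    at j0 j1 j2 j3 j4 j5 j6 ⊢
  linear_combination (norm := skip) j0 + j1 + j2 - j3 - j4 - j5 + j6
  abel

theorem N1 (h : MRep L) (a b c : A) :
    D L a b * D L a c * L b - L a * D L a b * D L b c = 0 := by
  have Dsma : ∀ p q : A, D L a (p * q) = -D L (p * q) a := fun p q => D_swap h _ _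
  have Dsmb : ∀ p q : A, D L b (p * q) = -D L (p * q) b := fun p q => D_swap h _ _
  have Dsmc : ∀ p q : A, D L c (p * q) = -D L (p * q) c := fun p q => D_swap h _ _
  have Dswab : D L b a = -D L a b := D_swap h _ _
  have Dswac : D L c a = -D L a c := D_swap h _ _
  have Dswbc : D L c b = -D L b c := D_swap h _ _
  have j0 := congrArg (fun t => D L b c * t) (G_eq h a a b)
  have j1 := congrArg (fun t => t * (L b * L b)) (G_eq h a a c)
  have j2 := congrArg (fun t => L b * t) (R4 h a b a c)
  have j3 := congrArg (fun t => t * (L a * L a)) (G_eq h b b c)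
  have j4 := congrArg (fun t => (L c * t) * L b) (G_eq h a a b)
  have j5 := congrArg (fun t => (L a * t) * L b) (G_eq h a c b)
  have j6 := congrArg (fun t => t * (L c * L a)) (G_eq h a b b)
  have j7 := congrArg (fun t => L b * t) (R4 h a a b c)
  have j8 := congrArg (fun t => (L b * t) * L a) (G_eq h a b c)
  have j9 := congrArg (fun t => L b * t) (S_eq h a a b c)
  have j10 := R4 h a b c (a * b)
  have j11 := congrArg (fun t => (L a * L a) * t) (G_eq h b b c)
  have j12 := congrArg (fun t => (L a * L c) * t) (G_eq h a b b)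
  have j13 := congrArg (fun t => (L b * L c) * t) (G_eq h a a b)
  have j14 := congrArg (fun t => t * (L a * L b)) (F3 h a b c)
  have j15 := congrArg (fun t => L b * t) (R4 h a c a b)
  have j16 := XXLp h a a b c b
  have j17 := G_eq h b (a * (a * b)) c
  have j18 := congrArg (fun t => t * D L b c) (G_eq h a a b)
  simp only [L_mul, D_mul_left h, Jac, D_add_left, D_add_right, D_neg_left, D_neg_right,
    map_add, map_neg, D_self h, neg_mul, mul_neg, neg_neg, mul_add, add_mul, mul_sub, sub_mul,
    mul_assoc, mul_zero, zero_mul, neg_zero, Dsma, Dsmb, Dsmc, Dswab, Dswac, Dswbc]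
    at j0 j1 j2 j3 j4 j5 j6 j7 j8 j9 j10 j11 j12 j13 j14 j15 j16 j17 j18 ⊢
  linear_combination (norm := skip) -j0 + j1 - j2 - j3 + j4 - j5 + j6 - j7 - j8 + j9 - j10 - j11
    + j12 + j13 + j14 + j15 + j16 + j17 + j18
  abel_nf
  simp only [three_smul_int h, neg_three_smul_int h, six_smul_int h, neg_six_smul_int h,
    nine_smul_int h, neg_nine_smul_int h, add_zero, zero_add]

theorem N1p (h : MRep L) (x y p q c : A) :
    D L x p * D L y c * L q - L x * D L y p * D L q c + D L y p * D L x c * L q - L y * D L x p
    * D L q c + D L x q * D L y c * L p - L x * D L y q * D L p c + D L y q * D L x c * L p - L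
    y * D L x q * D L p c = 0 := by
  have j0 := N1 h x p c
  have j1 := N1 h x q c
  have j2 := N1 h x (p + q) c
  have j3 := N1 h y p c
  have j4 := N1 h y q c
  have j5 := N1 h y (p + q) c
  have j6 := N1 h (x + y) p c
  have j7 := N1 h (x + y) q c
  have j8 := N1 h (x + y) (p + q) c
  simp only [map_add, D_add_left, D_add_right, mul_add, add_mul, mul_assoc]
    at j0 j1 j2 j3 j4 j5 j6 j7 j8 ⊢
  linear_combination (norm := skip) j0 + j1 - j2 + j3 + j4 - j5 - j6 - j7 + j8
  abel

theorem s0 (h : MRep L) (a b c : A) :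
    D L b c * D L c a * D L a b = 0 := by
  have Dsma : ∀ p q : A, D L a (p * q) = -D L (p * q) a := fun p q => D_swap h _ _
  have Dsmb : ∀ p q : A, D L b (p * q) = -D L (p * q) b := fun p q => D_swap h _ _
  have Dsmc : ∀ p q : A, D L c (p * q) = -D L (p * q) c := fun p q => D_swap h _ _
  have Dswab : D L b a = -D L a b := D_swap h _ _
  have Dswac : D L c a = -D L a c := D_swap h _ _
  have Dswbc : D L c b = -D L b c := D_swap h _ _
  have j0 := congrArg (fun t => t * D L a b) (S_eq h a b c c)
  have j1 := congrArg (fun t => L b * t) (N1p h c c a a b)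
  have j2 := N1p h c c a (a * b) b
  have j3 := N1p h c (b * c) a a b
  have j4 := congrArg (fun t => t * L b) (N1p h c c a a b)
  simp only [L_mul, D_mul_left h, Jac, D_add_left, D_add_right, D_neg_left, D_neg_right,
    map_add, map_neg, D_self h, neg_mul, mul_neg, neg_neg, mul_add, add_mul, mul_sub, sub_mul,
    mul_assoc, mul_zero, zero_mul, neg_zero, Dsma, Dsmb, Dsmc, Dswab, Dswac, Dswbc]
    at j0 j1 j2 j3 j4 ⊢
  linear_combination (norm := skip) j0 - j1 + j2 - j3 + j4
  abel_nf
  simp only [three_smul_int h, neg_three_smul_int h, six_smul_int h, neg_six_smul_int h,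
    nine_smul_int h, neg_nine_smul_int h, add_zero, zero_add]

theorem s0p (h : MRep L) (x y z w u v : A) :
    D L z u * D L v x * D L y w + D L z v * D L u x * D L y w + D L w u * D L v x * D L y z + D
    L w v * D L u x * D L y z + D L z u * D L v y * D L x w + D L z v * D L u y * D L x w + D L
    w u * D L v y * D L x z + D L w v * D L u y * D L x z = 0 := by
  have j0 := s0 h x z u
  have j1 := s0 h x z v
  have j2 := s0 h x z (u + v)
  have j3 := s0 h x w u
  have j4 := s0 h x w v
  have j5 := s0 h x w (u + v)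
  have j6 := s0 h x (z + w) u
  have j7 := s0 h x (z + w) v
  have j8 := s0 h x (z + w) (u + v)
  have j9 := s0 h y z u
  have j10 := s0 h y z v
  have j11 := s0 h y z (u + v)
  have j12 := s0 h y w u
  have j13 := s0 h y w v
  have j14 := s0 h y w (u + v)
  have j15 := s0 h y (z + w) u
  have j16 := s0 h y (z + w) v
  have j17 := s0 h y (z + w) (u + v)
  have j18 := s0 h (x + y) z u
  have j19 := s0 h (x + y) z v
  have j20 := s0 h (x + y) z (u + v)
  have j21 := s0 h (x + y) w u
  have j22 := s0 h (x + y) w v
  have j23 := s0 h (x + y) w (u + v)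
  have j24 := s0 h (x + y) (z + w) u
  have j25 := s0 h (x + y) (z + w) v
  have j26 := s0 h (x + y) (z + w) (u + v)
  simp only [map_add, D_add_left, D_add_right, mul_add, add_mul, mul_assoc]
    at j0 j1 j2 j3 j4 j5 j6 j7 j8 j9 j10 j11 j12 j13 j14 j15 j16 j17 j18 j19 j20 j21 j22 j23 j24 j25 j26 ⊢
  linear_combination (norm := skip) -j0 - j1 + j2 - j3 - j4 + j5 + j6 + j7 - j8 - j9 - j10 + j11
    - j12 - j13 + j14 + j15 + j16 - j17 + j18 + j19 - j20 + j21 + j22 - j23 - j24 - j25 + j26
  abel

theorem hid (h : MRep L) (a b c d : A) :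
    L a * L a * D L b c * D L b d + D L a b * D L a c * D L b d = 0 := by
  have Dsma : ∀ p q : A, D L a (p * q) = -D L (p * q) a := fun p q => D_swap h _ _
  have Dsmb : ∀ p q : A, D L b (p * q) = -D L (p * q) b := fun p q => D_swap h _ _
  have Dsmc : ∀ p q : A, D L c (p * q) = -D L (p * q) c := fun p q => D_swap h _ _
  have Dsmd : ∀ p q : A, D L d (p * q) = -D L (p * q) d := fun p q => D_swap h _ _
  have Dswab : D L b a = -D L a b := D_swap h _ _
  have Dswac : D L c a = -D L a c := D_swap h _ _
  have Dswad : D L d a = -D L a d := D_swap h _ _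
  have Dswbc : D L c b = -D L b c := D_swap h _ _
  have Dswbd : D L d b = -D L b d := D_swap h _ _
  have Dswcd : D L d c = -D L c d := D_swap h _ _
  have j0 := congrArg (fun t => t * D L b d) (S_eq h a a b c)
  have j1 := s0p h b b c d a a
  have j2 := N1p h a (a * d) b b c
  have j3 := congrArg (fun t => (L a * D L a d) * t) (G_eq h b b c)
  have j4 := congrArg (fun t => t * (L c * L b)) (S_eq h a a b d)
  have j5 := congrArg (fun t => (L b * t) * L b) (S_eq h a a c d)
  have j6 := congrArg (fun t => t * (D L c d * L b)) (G_eq h a a b)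
  have j7 := congrArg (fun t => (L a * L a) * t) (S_eq h b b c d)
  have j8 := congrArg (fun t => (D L b d * t) * L b) (G_eq h a a c)
  have j9 := congrArg (fun t => (D L b c * t) * L b) (G_eq h a a d)
  have j10 := congrArg (fun t => t * L b) (LXXp h a c d b a)
  have j11 := congrArg (fun t => (D L a d * t) * L b) (G_eq h a c b)
  have j12 := congrArg (fun t => t * L b) (N1p h b c a a d)
  have j13 := congrArg (fun t => t * (L a * L b)) (S_eq h a c d b)
  have j14 := congrArg (fun t => t * (D L a d * L b)) (G_eq h b c a)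
  have j15 := congrArg (fun t => (L a * t) * D L b c) (G_eq h b d a)
  have j16 := congrArg (fun t => (L a * t) * D L b c) (G_eq h a d b)
  have j17 := congrArg (fun t => t * L b) (N1p h a a b d c)
  have j18 := congrArg (fun t => t * L b) (S_eq h a a d (b * c))
  have j19 := congrArg (fun t => L d * t) (N1p h a a b b c)
  simp only [L_mul, D_mul_left h, Jac, D_add_left, D_add_right, D_neg_left, D_neg_right,
    map_add, map_neg, D_self h, neg_mul, mul_neg, neg_neg, mul_add, add_mul, mul_sub, sub_mul,
    mul_assoc, mul_zero, zero_mul, neg_zero, Dsma, Dsmb, Dsmc, Dsmd, Dswab, Dswac, Dswad, Dswbc,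
    Dswbd, Dswcd]
    at j0 j1 j2 j3 j4 j5 j6 j7 j8 j9 j10 j11 j12 j13 j14 j15 j16 j17 j18 j19 ⊢
  linear_combination (norm := skip) j0 + j1 + j2 + j3 - j4 + j5 - j6 + j7 + j8 + j9 + j10 - j11
    - j12 - j13 + j14 + j15 - j16 + j17 + j18 - j19
  abel_nf
  simp only [three_smul_int h, neg_three_smul_int h, six_smul_int h, neg_six_smul_int h,
    nine_smul_int h, neg_nine_smul_int h, add_zero, zero_add]

end rep

end Pool.Agent.Malc3
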